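import Pool.Agent.R660.CF.Tilde
import Pool.Agent.R660.CF.Upper
import Pool.Agent.R660.CF.Lower

/-!
# Range of the topological entropy for `(a,b)`-continued fraction maps

`ft e a b` is the map of `[-1, 1]` of the problem, `lapSet F` is the set of the maximal intervals
on which `F` is monotone, and `lapsI e a b n` is the number of the laps of the `n`-th iterate.
-/

set_option autoImplicit false

namespace Pool.Agent.Results.MP_bb7674_an.EntropyRange

open Filter Topology Set Pool.Agent.R660.CF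

theorem exists_kappa : ∃ κ : ℝ, κ ^ 3 - κ ^ 2 - 1 = 0 ∧ ∀ x : ℝ, x ^ 3 - x ^ 2 - 1 = 0 → x = κ := by
  have hc : ContinuousOn (fun x : ℝ => x ^ 3 - x ^ 2 - 1) (Icc 1 2) := by fun_prop
  obtain ⟨κ, -, hκ⟩ := intermediate_value_Icc (by norm_num : (1 : ℝ) ≤ 2) hc
    (show (0 : ℝ) ∈ Icc ((fun x : ℝ => x ^ 3 - x ^ 2 - 1) 1) ((fun x : ℝ => x ^ 3 - x ^ 2 - 1) 2) by
      norm_num)
  have h1 : ∀ x : ℝ, x ^ 3 - x ^ 2 - 1 = 0 → 1 < x := by
    intro x hx
    by_contra hcon
    have h2 : x ^ 2 * (x - 1) = 1 := by linarith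
    nlinarith [sq_nonneg x, not_lt.1 hcon, mul_nonneg (sq_nonneg x) (sub_nonneg.2 (not_lt.1 hcon))]
  have hκ' : κ ^ 3 - κ ^ 2 - 1 = 0 := hκ
  refine ⟨κ, hκ', fun x hx => ?_⟩
  have k1 := h1 x hx
  have k2 := h1 κ hκ'
  have h3 : (x - κ) * (x ^ 2 + x * κ + κ ^ 2 - (x + κ)) = 0 := by linarith
  rcases mul_eq_zero.1 h3 with h | h
  · linarith
  · nlinarith

/-- The polynomial `x^3 - x^2 - 1` has exactly one real root `κ`; there is a function `H` on the
parameter set which gives the topological entropy, i.e. the number of laps of the `n`-th iterate is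
finite and `log (number of laps) / n → H a b` for every `(a, b)` in `𝒫` (whichever of the two
values `1`, `-1` is used for the middle branch at its jump `0`); and
`log κ ≤ H a b ≤ log ((1 + √5) / 2)` for all `(a, b)` in `𝒫`. -/
theorem result : ∃ κ : ℝ, (κ ^ 3 - κ ^ 2 - 1 = 0 ∧ ∀ x : ℝ, x ^ 3 - x ^ 2 - 1 = 0 → x = κ) ∧
    ∃ H : ℝ → ℝ → ℝ,
      (∀ e a b : ℝ, (e = 1 ∨ e = -1) → InP a b →
        (∀ n : ℕ, (lapSet (ft e a b)^[n]).Finite) ∧
        Tendsto (fun n : ℕ => Real.log (lapsI e a b n) / n) atTop (𝓝 (H a b))) ∧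
      ∀ a b : ℝ, InP a b → Real.log κ ≤ H a b ∧ H a b ≤ Real.log ((1 + √5) / 2) := by
  classical
  obtain ⟨κ, hκ, hκ'⟩ := exists_kappa
  refine ⟨κ, ⟨hκ, hκ'⟩, fun a b => if h : InP a b then (exists_entropy h).choose else 0, ?_, ?_⟩
  · intro e a b _ hab
    refine ⟨fun n => (lapSet_spec hab e n).1, ?_⟩
    rw [entropy_lapsI hab]
    simp only [dif_pos hab]
    exact (exists_entropy hab).choose_spec
  · intro a b hab
    simp only
    rw [dif_pos hab]
    have h := (exists_entropy hab).choose_spec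
    refine ⟨entropy_ge hab (by linarith) ?_ h, entropy_le hab h⟩
    by_contra hcon
    have h2 : κ ^ 2 * (κ - 1) = 1 := by linarith
    nlinarith [mul_nonneg (sq_nonneg κ) (sub_nonneg.2 (not_le.1 hcon).le)]

end Pool.Agent.Results.MP_bb7674_an.EntropyRange
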